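import Mathlib
import Pool.Graph.R_seed8.Y827.RO.NarF
import Pool.Graph.R_seed8.H732R3.TupIP

/-! Prime tuples near subsums of any vectors, at least `x / (log x) ^ K` of them. -/

set_option autoImplicit false

namespace Pool.Agent.H48.BM

open Finset Filter Topology
open Pool.Agent.Y827.GS
open Pool.Agent.Y827.RO

/-- The number of primes `N ≤ x` for which all `N + a i` are primes. -/
noncomputable def Cnt {k : ℕ} (a : Fin k → ℤ) (x : ℕ) : ℕ :=
  {N : ℕ | N ≤ x ∧ N.Prime ∧ ∀ i, ∃ p : ℕ, p.Prime ∧ (p : ℤ) = N + a i}.ncard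

open Classical in
theorem subsums (k : ℕ) : ∃ n C K : ℕ, ∀ᶠ x : ℕ in atTop, ∀ v : Fin n → Fin k → ℤ,
    (∀ j i, |v j i| ≤ x) →
    ∃ J : Finset (Fin n), J.Nonempty ∧ ∃ a : Fin k → ℤ, Function.Injective a ∧ (∀ i, a i ≠ 0) ∧
      (∀ i, |a i - ∑ j ∈ J, v j i| ≤ C) ∧ (x : ℝ) / Real.log x ^ K ≤ (Cnt a (C * x) : ℝ) := by
  obtain ⟨n, hn⟩ := Pool.Agent.H732R3.Tup.dhj_quarter k
  set T : ℕ := (k + 1) ^ n with hT
  have hT1 : 1 ≤ T := Nat.one_le_pow _ _ (by omega)
  obtain ⟨K, hK1, H⟩ := lamRD T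
  have H := H hT1 1
  set Q : ℕ := (T * K).factorial with hQ
  have hQ0 : 0 < Q := Nat.factorial_pos _
  set W : ℕ := T * K with hW
  have hW0 : 0 < W := Nat.mul_pos hT1 hK1
  obtain ⟨C0, hC0⟩ : ∃ C0 : ℕ, C0 = Q * (W + 1) := ⟨_, rfl⟩
  refine ⟨n, 66 * (n + 1) + 2 * C0, T * K + 3, ?_⟩
  have htend : Tendsto (fun x : ℕ => 64 * (n + 1) * x) atTop atTop :=
    tendsto_id.const_mul_atTop' (by positivity)
  have hlogev : ∀ᶠ x : ℕ in atTop, (1 + Real.log (64 * ((n : ℝ) + 1))) ^ (T * K + 2) ≤ Real.log x :=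
    (Real.tendsto_log_atTop.comp tendsto_natCast_atTop_atTop).eventually_ge_atTop _
  filter_upwards [htend.eventually H, eventually_ge_atTop (C0 + 3), hlogev] with x hN hx hlog v hv
  obtain ⟨N, hNdef⟩ : ∃ N : ℕ, N = 64 * (n + 1) * x := ⟨_, rfl⟩
  rw [← hNdef] at hN
  set e : (Fin n → Fin (k + 1)) ≃ Fin T := finFunctionFinEquiv with he
  set V : Fin n → Fin (k + 1) → ℤ := fun j => Fin.cons 0 (v j) with hV
  set s : (Fin n → Fin (k + 1)) → ℤ := fun w => ∑ j, V j (w j) with hs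
  have hVb : ∀ j i, |V j i| ≤ x := by
    intro j i
    refine Fin.cases ?_ (fun i => ?_) i
    · simp [hV]
    · simpa [hV] using hv j i
  have hsb : ∀ w, |s w| ≤ n * x := by
    intro w
    rw [hs]
    refine (Finset.abs_sum_le_sum_abs _ _).trans ?_
    refine (Finset.sum_le_card_nsmul _ _ (x : ℤ) fun j _ => hVb j _).trans ?_
    rw [card_univ, Fintype.card_fin, nsmul_eq_mul]
  have hx1 : (1 : ℤ) ≤ x := by exact_mod_cast (by omega : 1 ≤ x)
  have hNz : (N : ℤ) = 64 * (n + 1) * x := by rw [hNdef]; push_cast; ring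
  have hNr : (N : ℝ) = 64 * (n + 1) * x := by rw [hNdef]; push_cast; ring
  have hQz : (0 : ℤ) < Q := by exact_mod_cast hQ0
  have hWz : (0 : ℤ) < W := by exact_mod_cast hW0
  -- the shifts: multiples of `Q` near `s w`, with given classes
  obtain ⟨y, hy⟩ : ∃ y : Fin T → Fin K → ℤ, ∀ g i,
      s (e.symm g) / Q ≤ y g i ∧ y g i < s (e.symm g) / Q + W ∧
      (W : ℤ) ∣ y g i - ((g : ℕ) * K + (i : ℕ) : ℕ) := by
    refine ⟨fun g i => s (e.symm g) / Q + ((((g : ℕ) * K + (i : ℕ) : ℕ) : ℤ) - s (e.symm g) / Q) % W,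
      fun g i => ⟨?_, ?_, ?_⟩⟩
    · have := Int.emod_nonneg ((((g : ℕ) * K + (i : ℕ) : ℕ) : ℤ) - s (e.symm g) / Q) hWz.ne'
      linarith
    · have := Int.emod_lt_of_pos ((((g : ℕ) * K + (i : ℕ) : ℕ) : ℤ) - s (e.symm g) / Q) hWz
      linarith
    · have h1 := Int.emod_add_mul_ediv ((((g : ℕ) * K + (i : ℕ) : ℕ) : ℤ) - s (e.symm g) / Q) W
      refine ⟨-(((((g : ℕ) * K + (i : ℕ) : ℕ) : ℤ) - s (e.symm g) / Q) / W), ?_⟩
      linarith
  have hyb : ∀ g i, |(Q : ℤ) * y g i - s (e.symm g)| ≤ C0 := by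
    intro g i
    obtain ⟨h1, h2, -⟩ := hy g i
    have h3 := Int.emod_add_mul_ediv (s (e.symm g)) Q
    have h4 := Int.emod_nonneg (s (e.symm g)) hQz.ne'
    have h5 := Int.emod_lt_of_pos (s (e.symm g)) hQz
    have h6 := mul_le_mul_of_nonneg_left h1 hQz.le
    have h7 := mul_le_mul_of_nonneg_left h2.le hQz.le
    rw [hC0, abs_le]
    push_cast
    rw [mul_add] at h7
    constructor <;> nlinarith
  have hyinj : Function.Injective (fun z : Fin T × Fin K => y z.1 z.2) := by
    rintro ⟨g, i⟩ ⟨g', i'⟩ h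
    simp only at h
    have h1 := (hy g i).2.2
    have h2 := (hy g' i').2.2
    rw [h] at h1
    have h3 : (W : ℤ) ∣ (((g : ℕ) * K + (i : ℕ) : ℕ) : ℤ) - (((g' : ℕ) * K + (i' : ℕ) : ℕ) : ℤ) := by
      have := dvd_sub h2 h1
      have e1 : (y g' i' - (((g' : ℕ) * K + (i' : ℕ) : ℕ) : ℤ)) - (y g' i' - (((g : ℕ) * K + (i : ℕ) : ℕ) : ℤ)) =
          (((g : ℕ) * K + (i : ℕ) : ℕ) : ℤ) - (((g' : ℕ) * K + (i' : ℕ) : ℕ) : ℤ) := by ring
      rw [e1] at this
      exact this
    have hb : ∀ (g : Fin T) (i : Fin K), (g : ℕ) * K + (i : ℕ) < W := by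
      intro g i
      have h4 := g.2
      have h5 := i.2
      have h6 : ((g : ℕ) + 1) * K ≤ T * K := Nat.mul_le_mul_right _ h4
      rw [hW]
      nlinarith
    have h4 : (g : ℕ) * K + (i : ℕ) = (g' : ℕ) * K + (i' : ℕ) := by
      have h5 := hb g i
      have h6 := hb g' i'
      have h7 : (((g : ℕ) * K + (i : ℕ) : ℕ) : ℤ) - (((g' : ℕ) * K + (i' : ℕ) : ℕ) : ℤ) = 0 :=
        Int.eq_zero_of_abs_lt_dvd h3 (by rw [abs_lt]; constructor <;> omega)
      omega
    have h8 : (g : ℕ) = g' := by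
      have h9 : ((g : ℕ) * K + (i : ℕ)) / K = ((g' : ℕ) * K + (i' : ℕ)) / K := by rw [h4]
      rwa [Nat.mul_comm, Nat.mul_add_div (by omega), Nat.div_eq_of_lt i.2, Nat.mul_comm,
        Nat.mul_add_div (by omega), Nat.div_eq_of_lt i'.2, add_zero, add_zero] at h9
    have h9 : (i : ℕ) = i' := by rw [h8] at h4; omega
    rw [Fin.ext h8, Fin.ext h9]
  have hsy : ∀ g i, |(Q : ℤ) * y g i| ≤ (n + 1) * x := by
    intro g i
    have h1 := hyb g i
    have h2 := hsb (e.symm g)
    have h3 : (Q : ℤ) * y g i = (Q * y g i - s (e.symm g)) + s (e.symm g) := by ring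
    rw [h3]
    refine (abs_add_le _ _).trans ?_
    have h4 : ((C0 : ℕ) : ℤ) ≤ x := by exact_mod_cast (by omega : C0 ≤ x)
    linarith
  obtain ⟨S, c, hS, hcnt⟩ := hN (fun g i => (1, Q * y g i))
    (by
      intro z z' h
      have h1 := (Prod.ext_iff.1 h).2
      simp only at h1
      exact hyinj (mul_left_cancel₀ hQz.ne' h1))
    (by
      intro g i
      refine ⟨one_ne_zero, by simp, ?_, isCoprime_one_left, ?_⟩
      · refine (hsy g i).trans ?_
        rw [hNz]
        nlinarith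
      · intro t h1 h2
        have h3 : |(((Q : ℤ) * y g i : ℤ) : ℝ)| ≤ (n + 1) * x := by exact_mod_cast hsy g i
        have h4 := (abs_le.1 h3).1
        rw [hNr] at h1 ⊢
        simp only [Int.cast_one, one_mul]
        have hx0 : (0 : ℝ) ≤ x := Nat.cast_nonneg _
        have hn0 : (0 : ℝ) ≤ n := Nat.cast_nonneg _
        nlinarith [mul_nonneg hn0 hx0])
    (by
      intro p hp hpW
      refine ⟨1, fun g i hd => ?_⟩
      simp only [one_mul] at hd
      have h1 : (p : ℤ) ∣ Q := by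
        have : p ∣ Q := hp.dvd_factorial.2 hpW
        exact_mod_cast this
      have h2 : (p : ℤ) ∣ 1 := by
        have := dvd_sub hd (h1.mul_right (y g i))
        simpa using this
      have h3 : p ∣ 1 := by exact_mod_cast h2
      exact hp.one_lt.ne' (Nat.dvd_one.1 h3))
  obtain ⟨L, hL⟩ := hn (S.map e.symm.toEmbedding) (by
    rw [card_map]
    have h1 : (T : ℝ) ≤ 4 * S.card := by
      have : (0 : ℝ) ≤ S.card := Nat.cast_nonneg _
      linarith
    exact_mod_cast h1)
  have hLS : ∀ i, e (L i) ∈ S := by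
    intro i
    have := hL i
    rw [Finset.mem_map] at this
    obtain ⟨g, hg, hgi⟩ := this
    have h2 : e (L i) = g := by
      rw [← hgi]
      simp
    rw [h2]; exact hg
  set J : Finset (Fin n) := univ.filter (fun j => L.idxFun j = none) with hJ
  have hJne : J.Nonempty := by
    obtain ⟨j, hj⟩ := L.proper
    exact ⟨j, by simp [hJ, hj]⟩
  have hdiff : ∀ i : Fin k, s (L i.succ) - s (L 0) = ∑ j ∈ J, v j i := by
    intro i
    rw [hs]
    simp only
    rw [← sum_sub_distrib, hJ, sum_filter]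
    refine sum_congr rfl fun j _ => ?_
    by_cases hj : L.idxFun j = none
    · rw [if_pos hj, Combinatorics.Line.apply_none _ _ _ hj, Combinatorics.Line.apply_none _ _ _ hj]
      simp [hV]
    · rw [if_neg hj]
      obtain ⟨y, hy⟩ := Option.ne_none_iff_exists'.1 hj
      rw [Combinatorics.Line.apply_some hy, Combinatorics.Line.apply_some hy, sub_self]
  have hLinj : Function.Injective (fun i => L i) := by
    intro i i' hii
    obtain ⟨j, hj⟩ := L.proper
    have := congrFun hii j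
    simp only at this
    rw [Combinatorics.Line.apply_none _ _ _ hj, Combinatorics.Line.apply_none _ _ _ hj] at this
    exact this
  set z : Fin (k + 1) → ℤ := fun i => Q * y (e (L i)) (c (e (L i))) with hz
  have hzinj : Function.Injective z := by
    intro i i' h
    simp only [hz] at h
    have h1 := mul_left_cancel₀ hQz.ne' h
    have h2 := hyinj (a₁ := (e (L i), c (e (L i)))) (a₂ := (e (L i'), c (e (L i')))) h1
    exact hLinj (e.injective (Prod.ext_iff.1 h2).1)
  have hzs : ∀ i, |z i - s (L i)| ≤ C0 := by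
    intro i
    have := hyb (e (L i)) (c (e (L i)))
    rw [Equiv.symm_apply_apply] at this
    exact this
  refine ⟨J, hJne, fun i => z i.succ - z 0, ?_, ?_, ?_, ?_⟩
  · intro i i' h
    simp only [sub_left_inj] at h
    exact Fin.succ_injective _ (hzinj h)
  · intro i h
    have : z i.succ = z 0 := by linarith
    exact Fin.succ_ne_zero i (hzinj this)
  · intro i
    have h1 := abs_le.1 (hzs i.succ)
    have h2 := abs_le.1 (hzs 0)
    have h3 := hdiff i
    rw [abs_le]
    have h5 : (0 : ℤ) ≤ n := Nat.cast_nonneg _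
    push_cast
    constructor <;> linarith [h1.1, h1.2, h2.1, h2.2]
  · -- the count
    have hx0 : (0 : ℝ) < x := by exact_mod_cast (by omega : 0 < x)
    have hlx : 0 < Real.log x := Real.log_pos (by exact_mod_cast (by omega : 1 < x))
    have hlx1 : 1 ≤ Real.log x := by
      have h3 : Real.exp 1 ≤ x := by
        have := Real.exp_one_lt_d9
        have h4 : (3 : ℝ) ≤ x := by exact_mod_cast (by omega : 3 ≤ x)
        linarith
      exact (Real.le_log_iff_exp_le hx0).2 h3
    have hn1 : (1 : ℝ) ≤ 64 * (n + 1) := by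
      have : (0 : ℝ) ≤ n := Nat.cast_nonneg _
      linarith
    have hlN : Real.log N ≤ (1 + Real.log (64 * (n + 1))) * Real.log x := by
      rw [hNr, Real.log_mul (by positivity) hx0.ne', add_mul, one_mul, add_comm]
      have h1 : 0 ≤ Real.log (64 * (n + 1)) := Real.log_nonneg hn1
      nlinarith
    have hlN0 : 0 < Real.log N := by
      apply Real.log_pos
      have : (x : ℝ) ≤ N := by rw [hNr]; nlinarith
      have h4 : (3 : ℝ) ≤ x := by exact_mod_cast (by omega : 3 ≤ x)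
      linarith
    have h1 : (x : ℝ) / Real.log x ^ (T * K + 3) ≤ (N : ℝ) / Real.log N ^ (T * K + 2) := by
      rw [div_le_div_iff₀ (by positivity) (by positivity)]
      have h2 : Real.log N ^ (T * K + 2) ≤
          (1 + Real.log (64 * (n + 1))) ^ (T * K + 2) * Real.log x ^ (T * K + 2) := by
        rw [← mul_pow]
        exact pow_le_pow_left₀ hlN0.le hlN _
      have h3 : (x : ℝ) ≤ N := by rw [hNr]; nlinarith
      calc (x : ℝ) * Real.log N ^ (T * K + 2)
          ≤ N * ((1 + Real.log (64 * (n + 1))) ^ (T * K + 2) * Real.log x ^ (T * K + 2)) := by gcongr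
        _ ≤ N * (Real.log x * Real.log x ^ (T * K + 2)) := by gcongr
        _ = N * Real.log x ^ (T * K + 3) := by ring
    refine h1.trans (hcnt.trans ?_)
    rw [Nat.cast_le, Cnt, cntN, ← Set.ncard_coe_finset]
    have hfin : {N : ℕ | N ≤ (66 * (n + 1) + 2 * C0) * x ∧ N.Prime ∧
        ∀ i : Fin k, ∃ p : ℕ, p.Prime ∧ (p : ℤ) = N + (z i.succ - z 0)}.Finite :=
      (Set.finite_Iic ((66 * (n + 1) + 2 * C0) * x)).subset fun N hN => hN.1
    have hpr : ∀ q ∈ (Icc 1 N).filter (fun m : ℕ => ∀ f ∈ S.image (fun g => ((1 : ℤ), (Q : ℤ) * y g (c g))),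
        (f.1 * (m : ℤ) + f.2).toNat.Prime), ∀ i : Fin (k + 1), ((q : ℤ) + z i).toNat.Prime ∧
        ((((q : ℤ) + z i).toNat : ℕ) : ℤ) = q + z i := by
      intro q hq i
      have h2 := (mem_filter.1 hq).2 (1, (Q : ℤ) * y (e (L i)) (c (e (L i))))
        (mem_image.2 ⟨e (L i), hLS i, rfl⟩)
      simp only [one_mul] at h2
      have h3 : ((q : ℤ) + z i).toNat.Prime := h2
      refine ⟨h3, ?_⟩
      apply Int.toNat_of_nonneg
      by_contra hcon
      rw [Int.toNat_of_nonpos (by linarith)] at h3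
      exact Nat.not_prime_zero h3
    refine Set.ncard_le_ncard_of_injOn (fun q : ℕ => ((q : ℤ) + z 0).toNat) ?_ ?_ hfin
    · intro q hq
      rw [mem_coe] at hq
      obtain ⟨hp0, hc0⟩ := hpr q hq 0
      refine ⟨?_, hp0, fun i => ?_⟩
      · have h2 := (mem_Icc.1 (mem_filter.1 hq).1).2
        have h3 : (q : ℤ) ≤ 64 * (n + 1) * x := by rw [← hNz]; exact_mod_cast h2
        have h4 := (abs_le.1 (hsy (e (L 0)) (c (e (L 0))))).2
        have h5 : ((((q : ℤ) + z 0).toNat : ℕ) : ℤ) ≤ (((66 * (n + 1) + 2 * C0) * x : ℕ) : ℤ) := by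
          rw [hc0]
          push_cast
          have h6 : z 0 = Q * y (e (L 0)) (c (e (L 0))) := rfl
          have h7 : (0 : ℤ) ≤ n := Nat.cast_nonneg _
          have h8 : (0 : ℤ) ≤ C0 := Nat.cast_nonneg _
          nlinarith [mul_nonneg h7 (by linarith : (0 : ℤ) ≤ x), mul_nonneg h8 (by linarith : (0 : ℤ) ≤ x)]
        exact_mod_cast h5
      · obtain ⟨hp, hc⟩ := hpr q hq i.succ
        refine ⟨_, hp, ?_⟩
        rw [hc]
        show _ = ((((q : ℤ) + z 0).toNat : ℕ) : ℤ) + _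
        rw [hc0]
        ring
    · intro q hq q' hq' hqq
      rw [mem_coe] at hq hq'
      obtain ⟨-, hc0⟩ := hpr q hq 0
      obtain ⟨-, hc1⟩ := hpr q' hq' 0
      simp only at hqq
      rw [hqq, hc1] at hc0
      have h2 : (q' : ℤ) = q := by linarith
      exact_mod_cast h2.symm

end Pool.Agent.H48.BM
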