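import Mathlib
import Pool.Agent.H48.BM.Sub

/-! Many prime tuples within a bounded distance of every vector of shifts, at arbitrarily large scales. -/

set_option autoImplicit false

namespace Pool.Agent.H48.BM

open Finset Filter

theorem near (k : ℕ) : ∃ C K : ℕ, ∀ v : Fin k → ℤ, ∃ᶠ x : ℕ in atTop,
    ∃ a : Fin k → ℤ, Function.Injective a ∧ (∀ i, a i ≠ 0) ∧ (∀ i, |a i - v i| ≤ C) ∧
      (x : ℝ) / Real.log x ^ K ≤ (Cnt a x : ℝ) := by
  classical
  obtain ⟨n, C0, K0, hmain⟩ := subsums k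
  by_contra hcon0
  have hcon : ∀ C : ℕ, ∃ v : Fin k → ℤ, ∀ᶠ x : ℕ in atTop, ∀ a : Fin k → ℤ, Function.Injective a →
      (∀ i, a i ≠ 0) → (∀ i, |a i - v i| ≤ C) → (Cnt a x : ℝ) < (x : ℝ) / Real.log x ^ (K0 + 1) := by
    intro C
    by_contra h
    push Not at h
    exact hcon0 ⟨C, K0 + 1, h⟩
  choose vB hB using hcon
  obtain ⟨nrm, hnrm⟩ : ∃ nrm : (Fin k → ℤ) → ℕ, nrm = fun v => ∑ i, (v i).natAbs := ⟨_, rfl⟩
  have hnrm1 : ∀ (v : Fin k → ℤ) i, |v i| ≤ nrm v := by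
    intro v i
    have h1 : (v i).natAbs ≤ ∑ i, (v i).natAbs :=
      single_le_sum (f := fun i => (v i).natAbs) (fun _ _ => Nat.zero_le _) (mem_univ i)
    rw [Int.abs_eq_natAbs, hnrm]
    exact_mod_cast h1
  obtain ⟨G, hG0, hGs⟩ : ∃ G : ℕ → ℕ, G 0 = C0 ∧ ∀ j, G (j + 1) = G j + nrm (vB (G j)) :=
    ⟨fun j => Nat.rec C0 (fun _ g => g + nrm (vB g)) j, rfl, fun _ => rfl⟩
  have hG : ∀ j, G j = C0 + ∑ l ∈ range j, nrm (vB (G l)) := by
    intro j
    induction j with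
    | zero => simp [hG0]
    | succ j ih => rw [hGs, sum_range_succ, ih]; omega
  -- large `x`
  have htend : Tendsto (fun x : ℕ => (C0 + 1) * x) atTop atTop :=
    tendsto_id.const_mul_atTop' (by positivity)
  have hev2 : ∀ᶠ x : ℕ in atTop, ∀ j : Fin n, ∀ a : Fin k → ℤ, Function.Injective a →
      (∀ i, a i ≠ 0) → (∀ i, |a i - vB (G j) i| ≤ G j) →
      (Cnt a ((C0 + 1) * x) : ℝ) < (((C0 + 1) * x : ℕ) : ℝ) /
        Real.log (((C0 + 1) * x : ℕ) : ℝ) ^ (K0 + 1) := by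
    rw [eventually_all]
    intro j
    have h1 := hB (G j)
    exact htend.eventually h1
  have hev3 : ∀ᶠ x : ℕ in atTop, ∀ j : Fin n, ∀ i, |vB (G j) i| ≤ x := by
    rw [eventually_all]
    intro j
    filter_upwards [eventually_ge_atTop (nrm (vB (G j)))] with x hx i
    exact (hnrm1 _ _).trans (by exact_mod_cast hx)
  have hev4 : ∀ᶠ x : ℕ in atTop, ((C0 + 1 : ℕ) : ℝ) ≤ Real.log x :=
    (Real.tendsto_log_atTop.comp tendsto_natCast_atTop_atTop).eventually_ge_atTop _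
  obtain ⟨x, h1, h2, h3, h4, h5⟩ := (hmain.and (hev2.and (hev3.and (hev4.and
    (eventually_ge_atTop 2))))).exists
  obtain ⟨J, hJ, a, hinj, hne0, hAn, hcnt⟩ := h1 (fun j => vB (G j)) h3
  set js := J.max' hJ with hjs
  have hnear : ∀ i : Fin k, |a i - vB (G js) i| ≤ G js := by
    intro i
    have h6 := hAn i
    have h7 : ∑ j ∈ J, vB (G j) i = ∑ j ∈ J.erase js, vB (G j) i + vB (G js) i :=
      (sum_erase_add _ _ (J.max'_mem hJ)).symm
    have h8 : |∑ j ∈ J.erase js, vB (G j) i| ≤ ((∑ l ∈ range js, nrm (vB (G l)) : ℕ) : ℤ) := by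
      refine (abs_sum_le_sum_abs _ _).trans ?_
      push_cast
      calc ∑ j ∈ J.erase js, |vB (G j) i| ≤ ∑ j ∈ J.erase js, (nrm (vB (G j)) : ℤ) :=
            sum_le_sum fun j _ => hnrm1 _ _
        _ = ∑ l ∈ (J.erase js).map Fin.valEmbedding, (nrm (vB (G l)) : ℤ) := by
            rw [sum_map]; rfl
        _ ≤ ∑ l ∈ range js, (nrm (vB (G l)) : ℤ) := by
            apply sum_le_sum_of_subset_of_nonneg
            · intro l hl
              rw [Finset.mem_map] at hl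
              obtain ⟨j, hj, rfl⟩ := hl
              have h9 := mem_erase.1 hj
              have h10 : j ≤ js := J.le_max' j h9.2
              exact mem_range.2 (lt_of_le_of_ne (Fin.le_def.1 h10) (fun h => h9.1 (Fin.ext h)))
            · intro l _ _; positivity
    have h9 : a i - vB (G js) i = (a i - ∑ j ∈ J, vB (G j) i) +
        ∑ j ∈ J.erase js, vB (G j) i := by rw [h7]; ring
    rw [h9]
    refine (abs_add_le _ _).trans ?_
    rw [hG js]
    push_cast at h8 ⊢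
    linarith
  have hlt := h2 js _ hinj hne0 hnear
  have hle : (x : ℝ) / Real.log x ^ K0 ≤ (Cnt a ((C0 + 1) * x) : ℝ) := by
    refine hcnt.trans ?_
    rw [Nat.cast_le, Cnt, Cnt]
    apply Set.ncard_le_ncard
    · rintro N ⟨hN1, hN2, hN3⟩
      exact ⟨hN1.trans (Nat.mul_le_mul_right _ (by omega)), hN2, hN3⟩
    · exact (Set.finite_Iic ((C0 + 1) * x)).subset fun N hN => hN.1
  have hx0 : (0 : ℝ) < x := by exact_mod_cast (by omega : 0 < x)
  have hlx : 0 < Real.log x := Real.log_pos (by exact_mod_cast (by omega : 1 < x))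
  have hll : Real.log x ≤ Real.log (((C0 + 1) * x : ℕ) : ℝ) := by
    apply Real.log_le_log hx0
    have : 1 * x ≤ (C0 + 1) * x := Nat.mul_le_mul_right _ (by omega)
    exact_mod_cast (by omega : x ≤ (C0 + 1) * x)
  have hcon2 : (((C0 + 1) * x : ℕ) : ℝ) / Real.log (((C0 + 1) * x : ℕ) : ℝ) ^ (K0 + 1) ≤
      (x : ℝ) / Real.log x ^ K0 := by
    calc (((C0 + 1) * x : ℕ) : ℝ) / Real.log (((C0 + 1) * x : ℕ) : ℝ) ^ (K0 + 1)
        ≤ (((C0 + 1) * x : ℕ) : ℝ) / Real.log x ^ (K0 + 1) := by gcongr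
      _ = (((C0 + 1 : ℕ) : ℝ) * x) / (Real.log x ^ K0 * Real.log x) := by
          rw [pow_succ]; push_cast; ring
      _ ≤ (Real.log x * x) / (Real.log x ^ K0 * Real.log x) := by gcongr
      _ = (x : ℝ) / Real.log x ^ K0 := by field_simp
  linarith

end Pool.Agent.H48.BM
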