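import Mathlib

/-! A second moment inequality, and events of high probability at arbitrarily large scales. -/

set_option autoImplicit false

namespace Pool.Agent.H48.BM

open Finset Filter MeasureTheory ProbabilityTheory

theorem second {Ω ι : Type*} [MeasurableSpace Ω] (μ : Measure Ω) [IsProbabilityMeasure μ]
    (T : Finset ι) (E : ι → Set Ω) (hE : ∀ t ∈ T, MeasurableSet (E t))
    (hind : ∀ s ∈ T, ∀ t ∈ T, s ≠ t → μ.real (E s ∩ E t) = μ.real (E s) * μ.real (E t))
    (m : ℝ) (hm : m = ∑ t ∈ T, μ.real (E t)) (hm0 : 0 < m) :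
    μ.real {w | ∑ t ∈ T, (E t).indicator (fun _ => (1 : ℝ)) w ≤ m / 2} ≤ 4 / m := by
  classical
  set X : Ω → ℝ := fun w => ∑ t ∈ T, (E t).indicator (fun _ => (1 : ℝ)) w with hX
  have hint : ∀ A : Set Ω, MeasurableSet A → Integrable (A.indicator (fun _ => (1 : ℝ))) μ :=
    fun A hA => (integrable_const (1 : ℝ)).indicator hA
  have hintv : ∀ A : Set Ω, MeasurableSet A → ∫ w, A.indicator (fun _ => (1 : ℝ)) w ∂μ = μ.real A := by
    intro A hA
    rw [integral_indicator hA]
    simp
  have hXi : Integrable X μ := integrable_finsetSum _ fun t ht => hint _ (hE t ht)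
  have hX1 : ∫ w, X w ∂μ = m := by
    rw [hX, integral_finsetSum _ fun t ht => hint _ (hE t ht), hm]
    exact sum_congr rfl fun t ht => hintv _ (hE t ht)
  have hX2e : (fun w => X w ^ 2) = fun w => ∑ s ∈ T, ∑ t ∈ T,
      (E s ∩ E t).indicator (fun _ => (1 : ℝ)) w := by
    funext w
    simp only [hX]
    rw [sq, sum_mul_sum]
    apply sum_congr rfl
    intro s _
    apply sum_congr rfl
    intro t _
    by_cases h1 : w ∈ E s <;> by_cases h2 : w ∈ E t <;> simp [h1, h2]
  have hX2i : Integrable (fun w => X w ^ 2) μ := by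
    rw [hX2e]
    exact integrable_finsetSum _ fun s hs => integrable_finsetSum _ fun t ht =>
      hint _ ((hE s hs).inter (hE t ht))
  have hX2 : ∫ w, X w ^ 2 ∂μ ≤ m ^ 2 + m := by
    rw [hX2e, integral_finsetSum _ fun s hs => integrable_finsetSum _ fun t ht =>
      hint _ ((hE s hs).inter (hE t ht))]
    have h1 : ∀ s ∈ T, ∫ w, ∑ t ∈ T, (E s ∩ E t).indicator (fun _ => (1 : ℝ)) w ∂μ ≤
        μ.real (E s) * m + μ.real (E s) := by
      intro s hs
      rw [integral_finsetSum _ fun t ht => hint _ ((hE s hs).inter (hE t ht))]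
      calc ∑ t ∈ T, ∫ w, (E s ∩ E t).indicator (fun _ => (1 : ℝ)) w ∂μ
          = ∑ t ∈ T, μ.real (E s ∩ E t) :=
            sum_congr rfl fun t ht => hintv _ ((hE s hs).inter (hE t ht))
        _ ≤ ∑ t ∈ T, (μ.real (E s) * μ.real (E t) + if s = t then μ.real (E s) else 0) := by
            apply sum_le_sum
            intro t ht
            by_cases hst : s = t
            · subst hst
              simp only [Set.inter_self, if_true]
              have : 0 ≤ μ.real (E s) * μ.real (E s) := by positivity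
              linarith
            · rw [hind s hs t ht hst]; simp [hst]
        _ = μ.real (E s) * m + μ.real (E s) := by
            rw [sum_add_distrib, ← mul_sum, ← hm, sum_ite_eq T s, if_pos hs]
    calc ∑ s ∈ T, ∫ w, ∑ t ∈ T, (E s ∩ E t).indicator (fun _ => (1 : ℝ)) w ∂μ
        ≤ ∑ s ∈ T, (μ.real (E s) * m + μ.real (E s)) := sum_le_sum h1
      _ = m ^ 2 + m := by rw [sum_add_distrib, ← sum_mul, ← hm]; ring
  have hv : ∫ w, (X w - m) ^ 2 ∂μ ≤ m := by
    have h1 : ∀ w, (X w - m) ^ 2 = X w ^ 2 - 2 * m * X w + m ^ 2 := fun w => by ring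
    simp_rw [h1]
    have a1 : Integrable (fun w => X w ^ 2 - 2 * m * X w) μ := hX2i.sub (hXi.const_mul _)
    have a2 : Integrable (fun w => 2 * m * X w) μ := hXi.const_mul _
    rw [integral_add a1 (integrable_const _), integral_sub hX2i a2, integral_const_mul, hX1]
    simp only [integral_const, smul_eq_mul, probReal_univ]
    nlinarith
  have hvi : Integrable (fun w => (X w - m) ^ 2) μ := by
    have h1 : (fun w => (X w - m) ^ 2) = fun w => X w ^ 2 - 2 * m * X w + m ^ 2 := by
      funext w; ring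
    rw [h1]
    exact (hX2i.sub (hXi.const_mul _)).add (integrable_const _)
  have hM := mul_meas_ge_le_integral_of_nonneg (μ := μ) (f := fun w => (X w - m) ^ 2)
    (Eventually.of_forall fun w => by positivity) hvi (m ^ 2 / 4)
  have hsub : μ.real {w | X w ≤ m / 2} ≤ μ.real {w | m ^ 2 / 4 ≤ (X w - m) ^ 2} := by
    apply measureReal_mono
    · intro w hw
      simp only [Set.mem_ofPred_eq] at hw ⊢
      nlinarith
    · exact measure_ne_top _ _
  have h2 : m ^ 2 / 4 * μ.real {w | X w ≤ m / 2} ≤ m := by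
    refine (mul_le_mul_of_nonneg_left hsub (by positivity)).trans (hM.trans hv)
  rw [le_div_iff₀ hm0]
  have h3 : m * (m * μ.real {w | X w ≤ m / 2}) ≤ m * 4 := by nlinarith
  have h4 := le_of_mul_le_mul_left h3 hm0
  linarith

theorem frequently_of_high {Ω : Type*} [MeasurableSpace Ω] (μ : Measure Ω) [IsProbabilityMeasure μ]
    (G : ℕ → Set Ω) (h : ∀ ε : ℝ, 0 < ε → ∃ᶠ x : ℕ in atTop, μ.real (G x)ᶜ ≤ ε) :
    ∀ᵐ w ∂μ, ∃ᶠ x : ℕ in atTop, w ∈ G x := by
  rw [ae_iff]
  have h1 : {w | ¬ ∃ᶠ x : ℕ in atTop, w ∈ G x} = ⋃ m : ℕ, ⋂ x : ℕ, ⋂ (_ : m ≤ x), (G x)ᶜ := by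
    ext w
    simp only [Set.mem_ofPred_eq, not_frequently, eventually_atTop, Set.mem_iUnion, Set.mem_iInter,
      Set.mem_compl_iff]
  rw [h1, measure_iUnion_null_iff]
  intro m
  by_contra hne
  have hpos : 0 < μ.real (⋂ x : ℕ, ⋂ (_ : m ≤ x), (G x)ᶜ) := by
    rw [Measure.real]
    exact ENNReal.toReal_pos hne (measure_ne_top _ _)
  obtain ⟨x, hx1, hx2⟩ := ((h _ (half_pos hpos)).and_eventually (eventually_ge_atTop m)).exists
  have h2 : μ.real (⋂ x : ℕ, ⋂ (_ : m ≤ x), (G x)ᶜ) ≤ μ.real (G x)ᶜ := by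
    apply measureReal_mono
    · exact Set.iInter₂_subset x hx2
    · exact measure_ne_top _ _
  linarith

end Pool.Agent.H48.BM
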