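import Mathlib
import Pool.Agent.H48.BM.Near
import Pool.Agent.H48.BM.Prob

/-! Bounded random moves of few primes: tuples of `d + 1` elements, at arbitrarily large scales. -/

set_option autoImplicit false

namespace Pool.Agent.H48.BM

open Finset Filter MeasureTheory ProbabilityTheory

section Indep

variable {Ω : Type*} [MeasurableSpace Ω] (μ : Measure Ω) (f : Nat.Primes → Ω → ℤ)

theorem ind_prod (hf : iIndepFun f μ) {ι : Type*} [Fintype ι] (g : ι → Nat.Primes)
    (hg : Function.Injective g) (j : ι → ℤ) :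
    μ.real {w | ∀ l, f (g l) w = j l} = ∏ l, μ.real {w | f (g l) w = j l} := by
  have h1 := (hf.precomp hg).measure_inter_preimage_eq_mul univ
    (sets := fun l => ({j l} : Set ℤ)) (fun l _ => measurableSet_singleton _)
  have h2 : (⋂ l ∈ (univ : Finset ι), (fun w => f (g l) w) ⁻¹' ({j l} : Set ℤ)) =
      {w | ∀ l, f (g l) w = j l} := by
    ext w; simp
  rw [Measure.real]
  have h3 : μ {w | ∀ l, f (g l) w = j l} = ∏ l, μ {w | f (g l) w = j l} := by
    rw [← h2]
    exact h1
  rw [h3, ENNReal.toReal_prod]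
  rfl

theorem ind_pair (hf : iIndepFun f μ) {ι : Type*} [Fintype ι] (g g' : ι → Nat.Primes)
    (hg : Function.Injective g) (hg' : Function.Injective g') (hd : ∀ l l', g l ≠ g' l') (j j' : ι → ℤ) :
    μ.real ({w | ∀ l, f (g l) w = j l} ∩ {w | ∀ l, f (g' l) w = j' l}) =
      μ.real {w | ∀ l, f (g l) w = j l} * μ.real {w | ∀ l, f (g' l) w = j' l} := by
  have hinj : Function.Injective (Sum.elim g g') := hg.sumElim hg' hd
  have h1 := ind_prod μ f hf (Sum.elim g g') hinj (Sum.elim j j')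
  rw [Fintype.prod_sum_type] at h1
  simp only [Sum.elim_inl, Sum.elim_inr] at h1
  rw [ind_prod μ f hf g hg j, ind_prod μ f hf g' hg' j', ← h1]
  congr 1
  ext w
  simp only [Set.mem_inter_iff, Set.mem_ofPred_eq, Sum.forall, Sum.elim_inl, Sum.elim_inr]

end Indep

/-- The set into which the primes are moved: `p` is moved to `p + 2 f p`. -/
def MS {Ω : Type*} (f : Nat.Primes → Ω → ℤ) (w : Ω) : Set ℤ :=
  {m | ∃ p : Nat.Primes, m = ((p : ℕ) : ℤ) + 2 * f p w}

/-- The event that at least `s` of the `n ≤ x` have `n + v` and all `n + v + u i` in the moved set. -/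
def Ev {Ω : Type*} (f : Nat.Primes → Ω → ℤ) {d : ℕ} (v : ℤ) (u : Fin d → ℤ) (s : ℝ) (x : ℕ) : Set Ω :=
  {w | s ≤ ({n : ℕ | n ≤ x ∧ (n : ℤ) + v ∈ MS f w ∧ ∀ i, (n : ℤ) + v + u i ∈ MS f w}.ncard : ℝ)}

theorem core (d : ℕ) : ∃ L : ℕ, ∀ B : ℕ, ∃ K : ℕ, ∀ δ : ℕ → ℝ, (∀ n, 0 ≤ δ n) → Antitone δ →
    Tendsto (fun x : ℕ => (x : ℝ) * δ x ^ d / Real.log x ^ K) atTop atTop →
    ∀ {Ω : Type} [MeasurableSpace Ω] (μ : Measure Ω) [IsProbabilityMeasure μ] (f : Nat.Primes → Ω → ℤ),
    (∀ p, Measurable (f p)) → iIndepFun f μ →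
    (∃ P : ℕ, ∀ p : Nat.Primes, P ≤ (p : ℕ) → ∀ j : ℤ, 1 ≤ j → j ≤ L →
      δ p ≤ μ.real {w | f p w = j}) →
    (∃ P : ℕ, ∀ p : Nat.Primes, P ≤ (p : ℕ) → 1 / Real.log (p : ℕ) ^ B ≤ μ.real {w | f p w = 0}) →
    ∀ (v : ℤ) (u : Fin d → ℤ), Function.Injective u → (∀ i, u i ≠ 0) → (∀ i, Even (u i)) →
    ∀ ε : ℝ, 0 < ε →
    ∃ᶠ x : ℕ in atTop, μ.real (Ev f v u ((x : ℝ) * δ x ^ d / Real.log x ^ K) x)ᶜ ≤ ε := by
  classical
  obtain ⟨C, K0, hC⟩ := near d
  refine ⟨C + 1, fun B => ⟨K0 + B + 1,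
    fun δ hδ0 hδa hδt {Ω} _ μ _ f hfm hfi hmove hstay v u hu hu0 hue ε hε => ?_⟩⟩
  obtain ⟨P1, hP1⟩ := hmove
  obtain ⟨P2, hP2⟩ := hstay
  -- bounds
  obtain ⟨D, hD⟩ : ∃ D : ℕ, D = v.natAbs + ∑ i, (u i).natAbs + 2 * C + 4 := ⟨_, rfl⟩
  have hDv : |v| ≤ D := by
    rw [Int.abs_eq_natAbs]; exact_mod_cast (by omega : v.natAbs ≤ D)
  have hDu : ∀ i, |u i| + 2 * C + 2 ≤ D := by
    intro i
    have h1 : (u i).natAbs ≤ ∑ i, (u i).natAbs :=
      single_le_sum (f := fun i => (u i).natAbs) (fun _ _ => Nat.zero_le _) (mem_univ i)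
    rw [Int.abs_eq_natAbs]
    exact_mod_cast (by omega : (u i).natAbs + 2 * C + 2 ≤ D)
  set M : ℕ := 2 * D + 1 with hM
  have hM0 : (0 : ℝ) < M := by rw [hM]; positivity
  set P : ℕ := P1 + P2 + 2 * D + 3 with hP
  have hfr := hC (fun i => u i - (C + 2))
  -- conditions for large `x`
  have hev1 : ∀ᶠ x : ℕ in atTop, ((P + D : ℕ) : ℝ) ≤ (x : ℝ) / Real.log x ^ K0 / 2 := by
    have h0 : Tendsto (fun x : ℝ => x / Real.log x ^ K0) atTop atTop := by
      have h1 : Tendsto (fun x : ℝ => Real.exp x / x ^ K0) atTop atTop :=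
        Real.tendsto_exp_div_pow_atTop K0
      have h2 := h1.comp Real.tendsto_log_atTop
      refine h2.congr' ?_
      filter_upwards [eventually_gt_atTop 0] with x hx
      simp only [Function.comp, Real.exp_log hx]
    have h1 : Tendsto (fun x : ℕ => (x : ℝ) / Real.log x ^ K0) atTop atTop :=
      h0.comp tendsto_natCast_atTop_atTop
    filter_upwards [h1.eventually_ge_atTop (2 * ((P + D : ℕ) : ℝ))] with x hx
    linarith
  have hev2 : ∀ᶠ x : ℕ in atTop, 8 * (M : ℝ) ≤ Real.log x :=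
    (Real.tendsto_log_atTop.comp tendsto_natCast_atTop_atTop).eventually_ge_atTop _
  have h2t : Tendsto (fun x : ℕ => 2 * x) atTop atTop := tendsto_id.const_mul_atTop' (by norm_num)
  have hev3 : ∀ᶠ x : ℕ in atTop, max 1 (2 / ε) ≤
      ((2 * x : ℕ) : ℝ) * δ (2 * x) ^ d / Real.log ((2 * x : ℕ) : ℝ) ^ (K0 + B + 1) :=
    (hδt.comp h2t).eventually_ge_atTop _
  refine h2t.frequently ?_
  refine (hfr.and_eventually (hev1.and (hev2.and (hev3.and (eventually_ge_atTop (D + 3)))))).mono ?_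
  rintro x ⟨⟨a, hinj, hne0, hnear, hcnt⟩, hx1, hx2, hx3, hx4⟩
  have hx0 : (0 : ℝ) < x := by
    have : 0 < x := by omega
    exact_mod_cast this
  have hlx : 0 < Real.log x := by nlinarith
  -- the shifts
  have haD : ∀ i, |a i| ≤ D := by
    intro i
    have h1 := hnear i
    have h2 := hDu i
    have h3 : a i = (a i - (u i - (C + 2))) + (u i - (C + 2)) := by ring
    rw [h3]
    refine (abs_add_le _ _).trans ?_
    have h4 : |u i - (C + 2)| ≤ |u i| + (C + 2) := by
      refine (abs_sub _ _).trans ?_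
      have : |((C : ℤ) + 2)| = C + 2 := abs_of_nonneg (by positivity)
      rw [this]
    linarith
  have hau : ∀ i, 2 ≤ u i - a i ∧ u i - a i ≤ 2 * C + 2 := by
    intro i
    have h1 := abs_le.1 (hnear i)
    constructor <;> linarith [h1.1, h1.2]
  -- the set of base points
  set T0 : Finset ℕ := (range (x + 1)).filter
    (fun N => N.Prime ∧ ∀ i, ∃ p : ℕ, p.Prime ∧ (p : ℤ) = N + a i) with hT0
  have hT0c : (T0.card : ℝ) = (Cnt a x : ℝ) := by
    rw [Cnt, ← Set.ncard_coe_finset]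
    congr 2
    ext N
    simp only [hT0, coe_filter, mem_range, Set.mem_ofPred_eq]
    constructor
    · rintro ⟨h1, h2, h3⟩; exact ⟨by omega, h2, h3⟩
    · rintro ⟨h1, h2, h3⟩; exact ⟨by omega, h2, h3⟩
  set T1 : Finset ℕ := T0.filter (fun N => P ≤ N ∧ N + D ≤ x) with hT1
  have hT1c : T0.card ≤ T1.card + (P + D) := by
    have h1 : T0 ⊆ T1 ∪ (range P ∪ Ioc (x - D) x) := by
      intro N hN
      by_cases h2 : P ≤ N ∧ N + D ≤ x
      · exact mem_union_left _ (mem_filter.2 ⟨hN, h2⟩)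
      · apply mem_union_right
        have h3 := mem_range.1 (mem_filter.1 hN).1
        by_cases h4 : P ≤ N
        · apply mem_union_right
          rw [mem_Ioc]
          have : ¬ (N + D ≤ x) := fun h => h2 ⟨h4, h⟩
          omega
        · exact mem_union_left _ (mem_range.2 (by omega))
    refine (card_le_card h1).trans ((card_union_le _ _).trans ?_)
    have h2 := card_union_le (range P) (Ioc (x - D) x)
    rw [card_range, Nat.card_Ioc] at h2
    omega
  obtain ⟨r, hr, hTr⟩ : ∃ r ∈ range M, T1.card ≤ M * (T1.filter (fun N => N % M = r)).card := by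
    by_contra hcon
    push Not at hcon
    have h1 : T1.card = ∑ r ∈ range M, (T1.filter (fun N => N % M = r)).card :=
      card_eq_sum_card_fiberwise (fun N _ => mem_coe.2 (mem_range.2 (Nat.mod_lt _ (by omega))))
    have h2 : ∑ r ∈ range M, M * (T1.filter (fun N => N % M = r)).card < ∑ r ∈ range M, T1.card :=
      sum_lt_sum_of_nonempty ⟨0, mem_range.2 (by omega)⟩ hcon
    rw [← mul_sum, ← h1, sum_const, card_range, smul_eq_mul] at h2
    exact lt_irrefl _ h2
  set T : Finset ℕ := T1.filter (fun N => N % M = r) with hT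
  have hTmem : ∀ N ∈ T, N.Prime ∧ (∀ i, ∃ p : ℕ, p.Prime ∧ (p : ℤ) = N + a i) ∧ P ≤ N ∧ N + D ≤ x ∧
      N % M = r := by
    intro N hN
    obtain ⟨h1, h2⟩ := mem_filter.1 hN
    obtain ⟨h3, h4⟩ := mem_filter.1 h1
    obtain ⟨-, h5⟩ := mem_filter.1 h3
    exact ⟨h5.1, h5.2, h4.1, h4.2, h2⟩
  have hTsep : ∀ N ∈ T, ∀ N' ∈ T, N ≠ N' → (M : ℤ) ≤ |(N : ℤ) - N'| := by
    intro N hN N' hN' hne
    have h1 := (hTmem N hN).2.2.2.2
    have h2 := (hTmem N' hN').2.2.2.2
    have h3 : (M : ℤ) ∣ (N : ℤ) - N' := by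
      apply Int.ModEq.dvd
      have : N' ≡ N [MOD M] := by unfold Nat.ModEq; rw [h1, h2]
      exact (Int.natCast_modEq_iff.2 this)
    exact Int.le_of_dvd (abs_pos.2 (by omega)) ((dvd_abs _ _).2 h3)
  -- all shifts together
  set b : Fin (d + 1) → ℤ := Fin.cons 0 a with hb
  set t : Fin (d + 1) → ℤ := Fin.cons 0 u with ht
  set j : Fin (d + 1) → ℤ := fun l => (t l - b l) / 2 with hj
  have hbD : ∀ l, |b l| ≤ D := by
    intro l
    refine Fin.cases ?_ (fun i => ?_) l
    · simp [hb]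
    · simpa [hb] using haD i
  have hbinj : Function.Injective b := by
    rw [hb, Fin.cons_injective_iff]
    refine ⟨?_, hinj⟩
    rintro ⟨i, hi⟩
    exact hne0 i hi
  have hqex : ∀ N : ℕ, ∀ l : Fin (d + 1), ∃ q : Nat.Primes, N ∈ T → ((q : ℕ) : ℤ) = N + b l := by
    intro N l
    by_cases hN : N ∈ T
    · refine Fin.cases ?_ (fun i => ?_) l
      · exact ⟨⟨N, (hTmem N hN).1⟩, fun _ => by simp [hb]⟩
      · obtain ⟨p, hp, hpe⟩ := (hTmem N hN).2.1 i
        exact ⟨⟨p, hp⟩, fun _ => by simpa [hb] using hpe⟩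
    · exact ⟨⟨2, Nat.prime_two⟩, fun h => absurd h hN⟩
  choose q hq using hqex
  have hqinj : ∀ N ∈ T, Function.Injective (q N) := by
    intro N hN l l' h
    apply hbinj
    have h1 := hq N l hN
    have h2 := hq N l' hN
    rw [h] at h1
    linarith
  have hqdis : ∀ N ∈ T, ∀ N' ∈ T, N ≠ N' → ∀ l l', q N l ≠ q N' l' := by
    intro N hN N' hN' hne l l' h
    have h1 := hq N l hN
    have h2 := hq N' l' hN'
    rw [h, h2] at h1
    have h3 := hTsep N hN N' hN' hne
    have h4 : (N : ℤ) - N' = b l' - b l := by linarith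
    rw [h4] at h3
    have h5 := abs_sub (b l') (b l)
    have h6 := hbD l
    have h7 := hbD l'
    rw [hM] at h3
    push_cast at h3
    linarith
  -- the moves
  have hje : ∀ N ∈ T, ∀ l, 2 * j l = t l - b l := by
    intro N hN l
    refine Fin.cases ?_ (fun i => ?_) l
    · simp [hj, ht, hb]
    · have h1 : (2 : ℤ) ∣ u i - a i := by
        have hN1 := hTmem N hN
        obtain ⟨p, hp, hpe⟩ := hN1.2.1 i
        have h2 : Odd (N : ℤ) := by
          have : Odd N := hN1.1.odd_of_ne_two (by have := hN1.2.2.1; omega)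
          exact_mod_cast this
        have h3 : Odd (p : ℤ) := by
          have h5 : p ≠ 2 := by
            have h6 := abs_le.1 (haD i)
            have h7 : P ≤ N := hN1.2.2.1
            have h8 : ((P : ℕ) : ℤ) ≤ N := by exact_mod_cast h7
            intro h9
            rw [h9] at hpe
            rw [hP] at h8
            push_cast at h8 hpe
            linarith [h6.1]
          have : Odd p := hp.odd_of_ne_two h5
          exact_mod_cast this
        have h4 : Even (a i) := by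
          have : a i = p - N := by linarith
          rw [this]
          exact h3.sub_odd h2
        exact ((hue i).sub h4).two_dvd
      simp only [hj, ht, hb, Fin.cons_succ]
      rw [mul_comm]
      exact Int.ediv_mul_cancel h1
  set E : ℕ → Set Ω := fun N => {w | ∀ l, f (q N l) w = j l} with hE
  have hEm : ∀ N ∈ T, MeasurableSet (E N) := by
    intro N _
    have : E N = ⋂ l, (f (q N l)) ⁻¹' {j l} := by ext w; simp [hE]
    rw [this]
    exact MeasurableSet.iInter fun l => hfm _ (measurableSet_singleton _)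
  have hEi : ∀ N ∈ T, ∀ N' ∈ T, N ≠ N' → μ.real (E N ∩ E N') = μ.real (E N) * μ.real (E N') := by
    intro N hN N' hN' hne
    exact ind_pair μ f hfi (q N) (q N') (hqinj N hN) (hqinj N' hN') (hqdis N hN N' hN' hne) j j
  have hEl : ∀ N ∈ T, 1 / Real.log x ^ B * δ (2 * x) ^ d ≤ μ.real (E N) := by
    intro N hN
    rw [hE]
    simp only
    rw [ind_prod μ f hfi (q N) (hqinj N hN) j, Fin.prod_univ_succ]
    have hN1 := hTmem N hN
    have hPN : P ≤ N := hN1.2.2.1
    have hNx : N ≤ x := by have := hN1.2.2.2.1; omega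
    have h1 : 1 / Real.log x ^ B ≤ μ.real {w | f (q N 0) w = j 0} := by
      have h2 : ((q N 0 : ℕ) : ℤ) = N := by rw [hq N 0 hN]; simp [hb]
      have h3 : (q N 0 : ℕ) = N := by exact_mod_cast h2
      have h4 : j 0 = 0 := by simp [hj, ht, hb]
      rw [h4]
      refine le_trans ?_ (hP2 (q N 0) (by rw [h3]; omega))
      rw [h3]
      have hN0 : (0 : ℝ) < N := by exact_mod_cast (by omega : 0 < N)
      have hlN : 0 < Real.log N := Real.log_pos (by exact_mod_cast (by omega : 1 < N))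
      have : Real.log N ≤ Real.log x := Real.log_le_log hN0 (by exact_mod_cast hNx)
      gcongr
    have h5 : ∀ i : Fin d, δ (2 * x) ≤ μ.real {w | f (q N i.succ) w = j i.succ} := by
      intro i
      have h2 : ((q N i.succ : ℕ) : ℤ) = N + a i := by rw [hq N i.succ hN]; simp [hb]
      have h3 := abs_le.1 (haD i)
      have h6 : (((N - D : ℕ)) : ℤ) ≤ (q N i.succ : ℕ) := by
        rw [h2, Nat.cast_sub (by omega)]
        linarith [h3.1]
      have h7 : N - D ≤ (q N i.succ : ℕ) := by exact_mod_cast h6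
      have h8 : ((q N i.succ : ℕ) : ℤ) ≤ ((N + D : ℕ) : ℤ) := by
        rw [h2]; push_cast; linarith [h3.2]
      have h9 : (q N i.succ : ℕ) ≤ N + D := by exact_mod_cast h8
      have h10 := hje N hN i.succ
      have h11 := hau i
      have h12 : t i.succ - b i.succ = u i - a i := by simp [ht, hb]
      rw [h12] at h10
      refine le_trans ?_ (hP1 (q N i.succ) (by omega) (j i.succ) (by omega) (by push_cast; omega))
      apply hδa
      have := hN1.2.2.2.1
      omega
    have h6 : δ (2 * x) ^ d ≤ ∏ i : Fin d, μ.real {w | f (q N i.succ) w = j i.succ} := by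
      calc δ (2 * x) ^ d = ∏ _i : Fin d, δ (2 * x) := by simp
        _ ≤ _ := prod_le_prod (fun i _ => hδ0 _) (fun i _ => h5 i)
    exact mul_le_mul h1 h6 (pow_nonneg (hδ0 _) _) (by positivity)
  -- expectation
  set m : ℝ := ∑ N ∈ T, μ.real (E N) with hm
  have hTc : (x : ℝ) / Real.log x ^ K0 / 2 ≤ M * T.card := by
    have h1 : (T0.card : ℝ) ≤ T1.card + ((P + D : ℕ) : ℝ) := by exact_mod_cast hT1c
    have h2 : (T1.card : ℝ) ≤ M * T.card := by exact_mod_cast hTr
    rw [hT0c] at h1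
    linarith
  set g : ℝ := ((2 * x : ℕ) : ℝ) * δ (2 * x) ^ d / Real.log ((2 * x : ℕ) : ℝ) ^ (K0 + B + 1) with hg
  have hg1 : 1 ≤ g := (le_max_left _ _).trans hx3
  have hg2 : 2 / ε ≤ g := (le_max_right _ _).trans hx3
  have hδd : 0 ≤ δ (2 * x) ^ d := pow_nonneg (hδ0 _) _
  have hmlow : 2 * g ≤ m := by
    have h1 : (T.card : ℝ) * (1 / Real.log x ^ B * δ (2 * x) ^ d) ≤ m := by
      rw [hm, ← nsmul_eq_mul]
      exact card_nsmul_le_sum _ _ _ hEl
    refine le_trans ?_ h1
    have h2 : (x : ℝ) / Real.log x ^ K0 / (2 * M) ≤ T.card := by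
      rw [div_le_iff₀ (by positivity)]
      linarith
    have h3 : g ≤ (2 * x : ℝ) * δ (2 * x) ^ d / Real.log x ^ (K0 + B + 1) := by
      rw [hg]
      push_cast
      have : Real.log x ≤ Real.log (2 * x) := Real.log_le_log hx0 (by linarith)
      gcongr
    calc 2 * g ≤ 2 * ((2 * x : ℝ) * δ (2 * x) ^ d / Real.log x ^ (K0 + B + 1)) := by linarith
      _ = (4 / Real.log x) * ((x : ℝ) / Real.log x ^ K0) * (1 / Real.log x ^ B * δ (2 * x) ^ d) := by
          rw [pow_succ, pow_add]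
          field_simp
          ring
      _ ≤ (1 / (2 * M)) * ((x : ℝ) / Real.log x ^ K0) * (1 / Real.log x ^ B * δ (2 * x) ^ d) := by
          have h4 : 4 / Real.log x ≤ 1 / (2 * M) := by
            rw [div_le_div_iff₀ hlx (by positivity)]
            linarith
          gcongr
      _ = (x : ℝ) / Real.log x ^ K0 / (2 * M) * (1 / Real.log x ^ B * δ (2 * x) ^ d) := by ring
      _ ≤ _ := by gcongr
  have hm0 : 0 < m := by linarith
  have hsec := second μ T E hEm hEi m hm hm0
  have hlast : 4 / m ≤ ε := by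
    rw [div_le_iff₀ hm0]
    rw [div_le_iff₀ hε] at hg2
    nlinarith
  refine le_trans ?_ (hsec.trans hlast)
  apply measureReal_mono _ (measure_ne_top _ _)
  intro w hw
  rw [Set.mem_ofPred_eq]
  by_contra hcon
  push Not at hcon
  apply hw
  rw [Ev, Set.mem_ofPred_eq]
  -- the number of `N` with the event
  set Z : Finset ℕ := T.filter (fun N => w ∈ E N) with hZ
  have hZc : ∑ N ∈ T, (E N).indicator (fun _ => (1 : ℝ)) w = Z.card := by
    rw [hZ, card_filter]
    push_cast
    apply sum_congr rfl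
    intro N _
    by_cases h : w ∈ E N <;> simp [h]
  rw [hZc] at hcon
  have h1 : g ≤ m / 2 := by linarith
  refine h1.trans (hcon.le.trans ?_)
  -- inject
  have hpos : ∀ N ∈ T, (((N : ℤ) - v).toNat : ℤ) = N - v := by
    intro N hN
    apply Int.toNat_of_nonneg
    have h2 := (abs_le.1 hDv).2
    have h3 : ((P : ℕ) : ℤ) ≤ N := by exact_mod_cast (hTmem N hN).2.2.1
    rw [hP] at h3
    push_cast at h3
    have : (0 : ℤ) ≤ D := by positivity
    linarith
  have hfin : {n : ℕ | n ≤ 2 * x ∧ (n : ℤ) + v ∈ MS f w ∧ ∀ i, (n : ℤ) + v + u i ∈ MS f w}.Finite :=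
    (Set.finite_Iic (2 * x)).subset fun n hn => hn.1
  rw [Nat.cast_le, ← Set.ncard_coe_finset]
  apply Set.ncard_le_ncard_of_injOn (fun N : ℕ => ((N : ℤ) - v).toNat) _ _ hfin
  · intro N hN
    rw [mem_coe, hZ, mem_filter] at hN
    obtain ⟨hNT, hwE⟩ := hN
    have hp := hpos N hNT
    have hwE' : ∀ l, f (q N l) w = j l := hwE
    have hmem : ∀ l, (N : ℤ) + t l ∈ MS f w := by
      intro l
      refine ⟨q N l, ?_⟩
      rw [hwE' l, hq N l hNT, hje N hNT l]
      ring
    refine ⟨?_, ?_, fun i => ?_⟩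
    · have h3 := (hTmem N hNT).2.2.2.1
      have h4 := (abs_le.1 hDv).1
      have h5 : (((N : ℤ) - v).toNat : ℤ) ≤ ((2 * x : ℕ) : ℤ) := by
        rw [hp]
        have : ((N + D : ℕ) : ℤ) ≤ x := by exact_mod_cast h3
        push_cast at this ⊢
        linarith
      exact_mod_cast h5
    · rw [hp]
      have := hmem 0
      simp only [ht, Fin.cons_zero, add_zero] at this
      rw [sub_add_cancel]
      exact this
    · rw [hp]
      have := hmem i.succ
      simp only [ht, Fin.cons_succ] at this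
      rw [sub_add_cancel]
      exact this
  · intro N hN N' hN' h
    rw [mem_coe, hZ, mem_filter] at hN hN'
    have e1 := hpos N hN.1
    have e2 := hpos N' hN'.1
    simp only at h
    rw [h, e2] at e1
    have : (N' : ℤ) = N := by linarith
    exact_mod_cast this.symm

end Pool.Agent.H48.BM
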